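import Mathlib

set_option autoImplicit false

namespace Pool.Agent.H.MP_ed8a78_an
open Finset Real

theorem pw {x r : ℝ} (m n : ℕ) (hn : n ≠ 0) (hx : 0 < x) (hr : 0 ≤ r) (h : 1 ≤ r ^ n * x ^ m) :
    x ^ (-((m : ℝ) / n)) ≤ r := by
  rw [← pow_le_pow_iff_left₀ (rpow_nonneg hx.le _) hr hn, ← rpow_natCast, ← rpow_mul hx.le, neg_mul,
    div_mul_cancel₀ _ (Nat.cast_ne_zero.2 hn), rpow_neg hx.le, rpow_natCast,
    inv_le_iff_one_le_mul₀ (by positivity)]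
  exact h

def Nz (z : ℤ × ℤ) : ℤ := z.1 ^ 2 + z.1 * z.2 + z.2 ^ 2

noncomputable def ψ (z : ℤ × ℤ) : ℝ := (√(Nz z) - 1) ^ (-(29 / 10 : ℝ))

def Ad (z : ℤ × ℤ) : Prop := z.1 % 3 = 1 ∧ z.2 % 3 = 0 ∧ (z.1 % 2 = 1 ∨ z.2 % 2 = 1) ∧ 7 ≤ Nz z

def zz (a : ℤ × ℤ) : ℤ × ℤ := (3 * a.1 + 1, 3 * a.2)

def cd (z : ℤ × ℤ) : Bool :=
  (z.1 % 2 = 1 ∨ z.2 % 2 = 1) ∧ 7 ≤ Nz z ∧ z ≠ (-2, 3) ∧ z ≠ (1, -3)

noncomputable def F (a : ℤ × ℤ) : ℝ := if cd (zz a) then ψ (zz a) else 0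

noncomputable def box (M : ℕ) : Finset (ℤ × ℤ) := Icc (-(M : ℤ)) M ×ˢ Icc (-(M : ℤ)) M

def isq (n : ℕ) : ℕ :=
  (List.range 13).foldr (fun i acc => if (acc + 2 ^ i) ^ 2 ≤ n then acc + 2 ^ i else acc) 0

theorem isq_le (n : ℕ) : isq n ^ 2 ≤ n := by
  unfold isq
  induction List.range 13 with
  | nil => simp
  | cons i l ih => rw [List.foldr_cons]; split_ifs with h <;> assumption

def uu (z : ℤ × ℤ) : ℕ := isq ((Nz z).toNat * 10000) - 100

def rr (a : ℤ × ℤ) : ℕ :=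
  if cd (zz a) then 234940000 * (4500 + uu (zz a)) / uu (zz a) ^ 3 + 1 else 0

theorem c1 : ∑ a ∈ box 15, rr a ≤ 401000 := by decide +kernel

theorem c2 : ∀ a ∈ box 15, cd (zz a) → 0 < uu (zz a) := by decide +kernel

theorem am {t : ℝ} (ht : 0 < t) : t ^ (-(29 / 10 : ℝ)) ≤ 1.1747 * (0.9 + t / 50) / t ^ 3 := by
  have h1 := rpow_one_add_le_one_add_mul_self (s := t / 5 - 1) (p := 1 / 10) (by linarith)
    (by norm_num) (by norm_num)
  have h2 : (1 / 5 : ℝ) ^ (-(((1 : ℕ) : ℝ) / (10 : ℕ))) ≤ 1.1747 :=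
    pw 1 10 (by norm_num) (by norm_num) (by norm_num) (by norm_num)
  have e : t ^ (-(29 / 10 : ℝ)) =
      (1 / 5 : ℝ) ^ (-(((1 : ℕ) : ℝ) / (10 : ℕ))) * (1 + (t / 5 - 1)) ^ (1 / 10 : ℝ) / t ^ 3 := by
    rw [rpow_neg (x := 1 / 5) (by norm_num), ← inv_rpow (by norm_num), Nat.cast_one, Nat.cast_ofNat,
      ← mul_rpow (by norm_num) (by linarith), ← rpow_natCast,
      show (1 / 5 : ℝ)⁻¹ * (1 + (t / 5 - 1)) = t by ring, ← rpow_sub ht]
    norm_num
  rw [e]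
  gcongr
  · exact rpow_nonneg (by linarith) _
  · linarith

theorem Fr (a : ℤ × ℤ) (ha : a ∈ box 15) : F a ≤ rr a / 1000000 := by
  unfold F rr
  split_ifs with h
  swap
  · simp
  have u0 := c2 a ha h
  set z := zz a
  set u := uu z with hu
  have u1 : (0 : ℝ) < u := by exact_mod_cast u0
  have n0 : 7 ≤ Nz z := by simp only [cd, decide_eq_true_eq] at h; exact h.2.1
  have a1 : (u : ℝ) / 100 ≤ √(Nz z) - 1 := by
    have := isq_le ((Nz z).toNat * 10000)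
    rw [show isq ((Nz z).toNat * 10000) = u + 100 by unfold uu at hu; omega] at this
    have e : (((Nz z).toNat : ℤ) : ℝ) = Nz z := by rw [Int.toNat_of_nonneg (by omega)]
    have : ((u : ℝ) + 100) ^ 2 ≤ Nz z * 10000 := by rw [← e]; exact_mod_cast this
    rw [le_sub_iff_add_le]
    exact le_sqrt_of_sq_le (by linarith)
  refine (rpow_le_rpow_of_nonpos (by positivity) a1 (by norm_num)).trans ((am (by positivity)).trans ?_)
  have := Nat.lt_div_mul_add (a := 234940000 * (4500 + u)) (pow_pos u0 3)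
  have : ((234940000 * (4500 + u) : ℕ) : ℝ) < (234940000 * (4500 + u) / u ^ 3 * u ^ 3 + u ^ 3 : ℕ) := by
    exact_mod_cast this
  generalize 234940000 * (4500 + u) / u ^ 3 = k at this ⊢
  push_cast at this ⊢
  rw [div_le_div_iff₀ (by positivity) (by positivity)]
  linarith

theorem F0 (a : ℤ × ℤ) : 0 ≤ F a := by
  unfold F
  split_ifs with h
  · simp only [cd, decide_eq_true_eq] at h
    have : (7 : ℝ) ≤ Nz (zz a) := by exact_mod_cast h.2.1
    exact rpow_nonneg (sub_nonneg.2 (one_le_sqrt.2 (by linarith))) _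
  · rfl

theorem tel {k : ℝ} (hk : 0 < k) :
    (k + 1) ^ (-(19 / 10 : ℝ)) ≤ 10 / 9 * (k ^ (-(9 / 10 : ℝ)) - (k + 1) ^ (-(9 / 10 : ℝ))) := by
  have h0 : 0 < k + 1 := by linarith
  have h1 := rpow_one_add_le_one_add_mul_self (s := -(k + 1)⁻¹) (p := 9 / 10)
    (neg_le_neg (inv_le_one_of_one_le₀ (by linarith))) (by norm_num) (by norm_num)
  rw [show 1 + -(k + 1)⁻¹ = k / (k + 1) by field_simp; ring, div_rpow hk.le h0.le,
    div_le_iff₀ (by positivity)] at h1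
  rw [show -(19 / 10 : ℝ) = -(9 / 10) + -1 by norm_num, rpow_add h0, rpow_neg_one, rpow_neg h0.le,
    rpow_neg hk.le]
  have p1 := rpow_pos_of_pos hk (9 / 10)
  have p2 := rpow_pos_of_pos h0 (9 / 10)
  generalize k ^ (9 / 10 : ℝ) = A at *
  generalize (k + 1) ^ (9 / 10 : ℝ) = B at *
  have p3 : 0 < (k + 1)⁻¹ := by positivity
  generalize (k + 1)⁻¹ = c at *
  have : B⁻¹ * (1 + 9 / 10 * c) ≤ A⁻¹ := by
    rw [inv_mul_le_iff₀ p2, le_mul_inv_iff₀ p1]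
    nlinarith [mul_pos p2 (mul_pos p3 p3)]
  linarith

theorem shell {M : ℕ} (hM : 15 ≤ M) (a : ℤ × ℤ) (h : a ∉ box M) :
    F a ≤ 0.0718 * ((M : ℝ) + 1) ^ (-(29 / 10 : ℝ)) := by
  have M0 : (15 : ℝ) ≤ M := by exact_mod_cast hM
  unfold F
  split_ifs
  swap
  · positivity
  have h2 : (2.48 : ℝ) ^ (-(((29 : ℕ) : ℝ) / (10 : ℕ))) ≤ 0.0718 :=
    pw 29 10 (by norm_num) (by norm_num) (by norm_num) (by norm_num)
  have a1 : 2.48 * ((M : ℝ) + 1) ≤ √(Nz (zz a)) - 1 := by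
    rw [le_sub_iff_add_le]
    refine le_sqrt_of_sq_le ?_
    have : 3 * (3 * (M : ℤ) + 2) ^ 2 ≤ 4 * Nz (zz a) := by
      simp only [box, mem_product, mem_Icc, not_and_or, not_le] at h
      simp only [Nz, zz]
      have M1 : (0 : ℤ) ≤ M := by positivity
      rcases h with (h | h) | h | h
      · nlinarith [sq_nonneg (3 * a.1 + 1 + 6 * a.2)]
      · nlinarith [sq_nonneg (3 * a.1 + 1 + 6 * a.2)]
      · nlinarith [sq_nonneg (6 * a.1 + 2 + 3 * a.2)]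
      · nlinarith [sq_nonneg (6 * a.1 + 2 + 3 * a.2)]
    have : 3 * (3 * (M : ℝ) + 2) ^ 2 ≤ 4 * Nz (zz a) := by exact_mod_cast this
    nlinarith
  refine (rpow_le_rpow_of_nonpos (by positivity) a1 (by norm_num)).trans ?_
  rw [mul_rpow (by norm_num) (by positivity)]
  gcongr
  simpa using h2

theorem boxs {M : ℕ} (hM : 15 ≤ M) : ∑ a ∈ box M, F a ≤
    0.401 + 0.6383 * ((15 : ℝ) ^ (-(9 / 10 : ℝ)) - (M : ℝ) ^ (-(9 / 10 : ℝ))) := by
  induction M, hM using Nat.le_induction with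
  | base =>
    refine (sum_le_sum Fr).trans ?_
    have : ((∑ a ∈ box 15, rr a : ℕ) : ℝ) ≤ (401000 : ℕ) := by exact_mod_cast c1
    rw [← sum_div, ← Nat.cast_sum]
    push_cast at this ⊢
    linarith
  | succ M hM ih =>
    have M0 : (15 : ℝ) ≤ M := by exact_mod_cast hM
    have sub : box M ⊆ box (M + 1) := product_subset_product
      (Icc_subset_Icc (by omega) (by omega)) (Icc_subset_Icc (by omega) (by omega))
    have cb : ∀ M : ℕ, (box M).card = (2 * M + 1) ^ 2 := fun M => by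
      rw [box, card_product, Int.card_Icc, show ((M : ℤ) + 1 - -M).toNat = 2 * M + 1 by omega, sq]
    have c : (box (M + 1) \ box M).card = 8 * (M + 1) := by
      rw [card_sdiff_of_subset sub, cb, cb]
      exact Nat.sub_eq_of_eq_add (by ring)
    have s := sum_le_card_nsmul _ _ _ fun a (ha : a ∈ box (M + 1) \ box M) =>
      shell hM a (mem_sdiff.1 ha).2
    have t := tel (k := M) (by linarith)
    have e : ((M : ℝ) + 1) ^ (-(19 / 10 : ℝ)) = (M + 1) * ((M : ℝ) + 1) ^ (-(29 / 10 : ℝ)) := by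
      rw [show -(19 / 10 : ℝ) = 1 + -(29 / 10) by norm_num, rpow_add (by linarith), rpow_one]
    have p : 0 ≤ ((M : ℝ) + 1) ^ (-(19 / 10 : ℝ)) := by positivity
    rw [c, nsmul_eq_mul] at s
    rw [← sum_sdiff sub]
    push_cast at s ⊢
    nlinarith

theorem lat (U : Finset (ℤ × ℤ)) (h : ∀ z ∈ U, Ad z ∧ z ≠ (-2, 3) ∧ z ≠ (1, -3)) :
    ∑ z ∈ U, ψ z ≤ 0.457 := by
  have e : ∀ z ∈ U, zz (z.1 / 3, z.2 / 3) = z := fun z hz => by
    obtain ⟨⟨a, b, -⟩, -⟩ := h z hz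
    ext <;> simp only [zz] <;> omega
  obtain ⟨M, hM⟩ := (U.image fun z => z.1.natAbs + z.2.natAbs).bddAbove
  have h2 : (15 : ℝ) ^ (-(((9 : ℕ) : ℝ) / (10 : ℕ))) ≤ 0.0875 :=
    pw 9 10 (by norm_num) (by norm_num) (by norm_num) (by norm_num)
  calc _ = ∑ z ∈ U, F (z.1 / 3, z.2 / 3) := sum_congr rfl fun z hz => by
        obtain ⟨⟨-, -, a, b⟩, c, d⟩ := h z hz
        rw [F, e z hz, if_pos (by simp only [cd, decide_eq_true_eq]; exact ⟨a, b, c, d⟩)]
    _ = ∑ a ∈ U.image fun z => (z.1 / 3, z.2 / 3), F a :=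
        (sum_image fun z hz y hy k => by rw [← e z hz, ← e y hy]; exact congrArg zz k).symm
    _ ≤ ∑ a ∈ box (M + 15), F a := by
        refine sum_le_sum_of_subset_of_nonneg (fun a ha => ?_) fun a _ _ => F0 a
        obtain ⟨z, hz, rfl⟩ := mem_image.1 ha
        have := hM (mem_coe.2 (mem_image_of_mem _ hz))
        simp only [box, mem_product, mem_Icc]
        omega
    _ ≤ _ := by
        have := boxs (M := M + 15) (by omega)
        have p : 0 ≤ ((M + 15 : ℕ) : ℝ) ^ (-(9 / 10 : ℝ)) := by positivity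
        push_cast at h2
        linarith

end Pool.Agent.H.MP_ed8a78_an
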