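import Pool.Agent.H.MP_ed8a78_an.A

set_option autoImplicit false

namespace Pool.Agent.H.MP_ed8a78_an
open Finset Real

def N (v : ℝ × ℝ) : ℝ := v.1 ^ 2 + v.1 * v.2 + v.2 ^ 2

def a0 (v : ℝ × ℝ) : ℝ × ℝ := (v.1 - v.2, 3 * v.2)
def a1 (v : ℝ × ℝ) : ℝ × ℝ := (2 * v.1 + v.2, v.1 + 2 * v.2)
def a2 (v : ℝ × ℝ) : ℝ × ℝ := (3 * v.1, v.2 - v.1)
def R (v : ℝ × ℝ) : ℝ × ℝ := (-v.1 - v.2, v.1)
def b1 (v : ℝ × ℝ) : ℝ × ℝ := (-2 * v.1 - v.2, 3 * v.1)
def b2 (v : ℝ × ℝ) : ℝ × ℝ := (v.1 + 2 * v.2, -3 * v.1 - 3 * v.2)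

noncomputable def w (t : ℝ) : ℝ := t ^ (-(29 / 20 : ℝ))

noncomputable def g : ℕ → ℝ × ℝ → ℝ
  | 0, v => w (N v)
  | n + 1, v => g n (a0 v) + g n (a1 v) + g n (a2 v)

theorem N0 (v : ℝ × ℝ) : 0 ≤ N v := by unfold N; nlinarith [sq_nonneg (v.1 + v.2)]

theorem g0 (n : ℕ) (v : ℝ × ℝ) : 0 ≤ g n v := by
  induction n generalizing v with
  | zero => exact rpow_nonneg (N0 v) _
  | succ n ih => exact add_nonneg (add_nonneg (ih _) (ih _)) (ih _)

theorem NR (v : ℝ × ℝ) : N (R v) = N v := by simp only [N, R]; ring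

theorem gR (n : ℕ) (v : ℝ × ℝ) : g n (R v) = g n v := by
  induction n generalizing v with
  | zero => simp only [g, NR]
  | succ n ih =>
    have e0 : a0 (R v) = R (a2 v) := by simp only [a0, a2, R]; ext <;> ring
    have e1 : a1 (R v) = R (a0 v) := by simp only [a0, a1, R]; ext <;> ring
    have e2 : a2 (R v) = R (a1 v) := by simp only [a1, a2, R]; ext <;> ring
    simp only [g, e0, e1, e2, ih]; ring

theorem gB (n : ℕ) (v : ℝ × ℝ) : g (n + 1) v = g n (a0 v) + g n (b1 v) + g n (b2 v) := by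
  have e1 : b1 v = R (a2 v) := by simp only [b1, a2, R]; ext <;> ring
  have e2 : b2 v = R (R (a1 v)) := by simp only [b2, a1, R]; ext <;> ring
  simp only [g, e1, e2, gR]; ring

theorem Ns (c : ℝ) (v : ℝ × ℝ) : N (c • v) = c ^ 2 * N v := by
  simp only [N, Prod.smul_fst, Prod.smul_snd, smul_eq_mul]; ring

theorem gs (n : ℕ) (c : ℝ) (v : ℝ × ℝ) : g n (c • v) = w (c ^ 2) * g n v := by
  induction n generalizing v with
  | zero => simp only [g, w, Ns]; exact mul_rpow (sq_nonneg c) (N0 v)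
  | succ n ih =>
    have e0 : a0 (c • v) = c • a0 v := by ext <;> simp [a0] <;> ring
    have e1 : a1 (c • v) = c • a1 v := by ext <;> simp [a1] <;> ring
    have e2 : a2 (c • v) = c • a2 v := by ext <;> simp [a2] <;> ring
    simp only [g, e0, e1, e2, ih]; ring

def A0 (v : ℤ × ℤ) : ℤ × ℤ := (v.1 - v.2, 3 * v.2)
def B1 (v : ℤ × ℤ) : ℤ × ℤ := (-2 * v.1 - v.2, 3 * v.1)
def B2 (v : ℤ × ℤ) : ℤ × ℤ := (v.1 + 2 * v.2, -3 * v.1 - 3 * v.2)

noncomputable def G : ℕ → ℤ × ℤ → ℝ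
  | 0, z => ψ z
  | n + 1, z => G n (A0 z) + G n (B1 z) + G n (B2 z)

theorem Nz_le (z : ℤ × ℤ) : Nz z ≤ Nz (A0 z) ∧ Nz z ≤ Nz (B1 z) ∧ Nz z ≤ Nz (B2 z) := by
  simp only [Nz, A0, B1, B2]
  exact ⟨by nlinarith [sq_nonneg z.2], by nlinarith [sq_nonneg z.1],
    by nlinarith [sq_nonneg (z.1 + z.2)]⟩

theorem cmp (d : ℕ) (z : ℤ × ℤ) (u : ℝ × ℝ) (hz : 7 ≤ Nz z) (hu : N u * 9 ^ d ≤ 1) :
    g d ((z.1 : ℝ) + u.1, (z.2 : ℝ) + u.2) ≤ G d z := by
  induction d generalizing z u with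
  | zero =>
    have h7 : (7 : ℝ) ≤ Nz z := by exact_mod_cast hz
    have e : (Nz z : ℝ) = (z.1 : ℝ) ^ 2 + z.1 * z.2 + z.2 ^ 2 := by simp [Nz]
    have s1 : 1 < √(Nz z) := by rw [lt_sqrt zero_le_one]; linarith
    have s2 := sq_sqrt (show (0 : ℝ) ≤ Nz z by linarith)
    rw [pow_zero, mul_one] at hu
    have r1 := sq_sqrt (N0 u)
    have r2 : √(N u) ≤ 1 := sqrt_le_one.2 hu
    have r3 := sqrt_nonneg (N u)
    have b : -(2 * z.1 * u.1 + z.1 * u.2 + z.2 * u.1 + 2 * z.2 * u.2) ≤ 2 * √(Nz z) * √(N u) := by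
      refine le_trans (neg_le_abs _) (abs_le_of_sq_le_sq ?_ (by positivity))
      rw [mul_pow, mul_pow, s2, r1, e, N]
      nlinarith [sq_nonneg (z.1 * u.2 - z.2 * u.1)]
    have c : (√(Nz z) - 1) ^ 2 ≤ N ((z.1 : ℝ) + u.1, (z.2 : ℝ) + u.2) := by
      have : N ((z.1 : ℝ) + u.1, (z.2 : ℝ) + u.2) = Nz z + N u +
          (2 * z.1 * u.1 + z.1 * u.2 + z.2 * u.1 + 2 * z.2 * u.2) := by
        rw [e]; simp only [N]; ring
      nlinarith [mul_nonneg (sub_nonneg.2 r2) (show 0 ≤ 2 * √(Nz z) - √(N u) - 1 by linarith)]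
    refine (rpow_le_rpow_of_nonpos (by positivity) c (by norm_num)).trans_eq ?_
    rw [← rpow_natCast, ← rpow_mul (by linarith)]
    norm_num [G, ψ]
  | succ d ih =>
    have hp : (0 : ℝ) < 9 ^ d := by positivity
    have k : ∀ v, N v ≤ 9 * N u → N v * 9 ^ d ≤ 1 := fun v hv => by
      rw [pow_succ] at hu; nlinarith
    obtain ⟨n0, n1, n2⟩ := Nz_le z
    have i0 := ih (A0 z) (a0 u) (hz.trans n0) (k _ (by
      simp only [N, a0]; nlinarith [sq_nonneg (2 * u.1 + u.2)]))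
    have i1 := ih (B1 z) (b1 u) (hz.trans n1) (k _ (by
      simp only [N, b1]; nlinarith [sq_nonneg (u.1 + 2 * u.2)]))
    have i2 := ih (B2 z) (b2 u) (hz.trans n2) (k _ (by
      simp only [N, b2]; nlinarith [sq_nonneg (u.1 - u.2)]))
    rw [gB]
    refine add_le_add (add_le_add (le_of_eq_of_le ?_ i0) (le_of_eq_of_le ?_ i1))
      (le_of_eq_of_le ?_ i2) <;> congr 1 <;> ext <;> simp [a0, b1, b2, A0, B1, B2] <;> ring

theorem chs (V : Finset (ℤ × ℤ)) (h : ∀ z ∈ V, Ad z) : ∃ U : Finset (ℤ × ℤ),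
    (∀ z ∈ U, Ad z ∧ z ≠ (-2, 3) ∧ z ≠ (1, -3)) ∧
      ∀ φ : ℤ × ℤ → ℝ, ∑ z ∈ U, φ z = ∑ z ∈ V, (φ (A0 z) + φ (B1 z) + φ (B2 z)) := by
  have ne : ∀ z ∈ V, ¬(z.1 = 1 ∧ z.2 = 0) := fun z hz a => by
    have := (h z hz).2.2.2
    simp [Nz, a.1, a.2] at this
  refine ⟨V.image A0 ∪ V.image B1 ∪ V.image B2, fun y hy => ?_, fun φ => ?_⟩
  · simp only [mem_union, mem_image] at hy
    rcases hy with (⟨z, hz, rfl⟩ | ⟨z, hz, rfl⟩) | ⟨z, hz, rfl⟩ <;>
      obtain ⟨a, b, c, d⟩ := h z hz <;> have := ne z hz <;> obtain ⟨n0, n1, n2⟩ := Nz_le z <;>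
      refine ⟨⟨?_, ?_, ?_, by omega⟩, ?_, ?_⟩ <;>
      simp only [A0, B1, B2, ne_eq, Prod.mk.injEq] <;> omega
  · rw [sum_union, sum_union, sum_image, sum_image, sum_image, sum_add_distrib, sum_add_distrib]
    · intro z _ y _ e; simp only [B2, Prod.mk.injEq] at e; ext <;> omega
    · intro z _ y _ e; simp only [B1, Prod.mk.injEq] at e; ext <;> omega
    · intro z _ y _ e; simp only [A0, Prod.mk.injEq] at e; ext <;> omega
    · simp only [disjoint_left, mem_image, not_exists, not_and]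
      rintro _ ⟨z, hz, rfl⟩ y hy e
      obtain ⟨a, b, -⟩ := h z hz
      obtain ⟨c, d, -⟩ := h y hy
      simp only [A0, B1, Prod.mk.injEq] at e; omega
    · simp only [disjoint_left, mem_union, mem_image, not_exists, not_and]
      rintro _ (⟨z, hz, rfl⟩ | ⟨z, hz, rfl⟩) y hy e <;> obtain ⟨a, b, -⟩ := h z hz <;>
        obtain ⟨c, d, -⟩ := h y hy <;> simp only [A0, B1, B2, Prod.mk.injEq] at e <;> omega

theorem tree (a : ℕ) : ∃ U : Finset (ℤ × ℤ), (∀ z ∈ U, Ad z ∧ z ≠ (-2, 3) ∧ z ≠ (1, -3)) ∧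
    ∀ k, ∑ d ∈ range a, (G (k + d + 1) (-2, 3) + G (k + d + 1) (1, -3)) = ∑ z ∈ U, G k z := by
  induction a with
  | zero => exact ⟨∅, by simp, by simp⟩
  | succ a ih =>
    obtain ⟨U, h, e⟩ := ih
    obtain ⟨U', h', e'⟩ := chs (insert (-2, 3) (insert (1, -3) U)) (by
      simp only [mem_insert]
      rintro z (rfl | rfl | hz)
      · simp [Ad, Nz]
      · simp [Ad, Nz]
      · exact (h z hz).1)
    refine ⟨U', h', fun k => ?_⟩
    rw [e', sum_range_succ', sum_insert, sum_insert]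
    · have := e (k + 1)
      simp only [show ∀ d, k + 1 + d = k + (d + 1) from fun d => by omega] at this
      rw [this]
      simp only [add_zero, G]
      ring
    · exact fun hz => (h _ hz).2.2 rfl
    · simp only [mem_insert, not_or]
      exact ⟨by simp, fun hz => (h _ hz).2.1 rfl⟩

def vv (y : ℝ) : ℝ × ℝ := (1 - y, 2 * y)

noncomputable def sd (n : ℕ) (y : ℝ) : ℝ := g n (b1 (vv y)) + g n (b2 (vv y))

theorem gv (n : ℕ) (y : ℝ) : g (n + 1) (vv y) = g n (vv (3 * y)) + sd n y := by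
  rw [gB, sd, add_assoc]
  congr 2
  simp only [a0, vv]; ext <;> ring

theorem side (a : ℕ) {y : ℝ} (hy : |3 ^ a * y| ≤ 1 / 3) :
    ∑ j ∈ range a, sd (a - j) (3 ^ j * y) ≤ 0.457 := by
  obtain ⟨U, h, e⟩ := tree a
  refine le_trans ?_ ((e 0).trans_le (lat U h))
  rw [← sum_range_reflect]
  refine sum_le_sum fun d hd => ?_
  obtain ⟨j, rfl⟩ : ∃ j, a = j + d + 1 := ⟨a - 1 - d, by have := mem_range.1 hd; omega⟩
  rw [show j + d + 1 - 1 - d = j by omega, show j + d + 1 - j = d + 1 by omega, zero_add]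
  have k : 9 * (3 ^ j * y) ^ 2 * 9 ^ (d + 1) ≤ 1 := by
    have := sq_le_sq' (abs_le.1 hy).1 (abs_le.1 hy).2
    have e : (9 : ℝ) ^ (d + 1) = (3 ^ (d + 1)) ^ 2 := by rw [← pow_mul, mul_comm, pow_mul]; norm_num
    rw [add_assoc, pow_add] at this
    rw [e]; linarith
  refine add_le_add (le_of_eq_of_le ?_ (cmp _ (-2, 3) (0, -3 * (3 ^ j * y)) (by simp [Nz]) ?_))
    (le_of_eq_of_le ?_ (cmp _ (1, -3) (3 * (3 ^ j * y), -3 * (3 ^ j * y)) (by simp [Nz]) ?_))
  · congr 1; ext <;> simp [b1, vv] <;> ring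
  · simp only [N]; linarith
  · congr 1; ext <;> simp [b2, vv] <;> ring
  · simp only [N]; linarith

theorem wle {t c r : ℝ} (h : c ≤ t) (hc : 0 < c) (hr : 0 ≤ r) (k : 1 ≤ r ^ 20 * c ^ 29) :
    w t ≤ r := (rpow_le_rpow_of_nonpos hc h (by norm_num)).trans (by simpa using pw 29 20 (by norm_num) hc hr k)

theorem wge {t c r : ℝ} (h : t ≤ c) (ht : 0 < t) (hr : 0 < r) (k : r ^ 20 * c ^ 29 ≤ 1) :
    r ≤ w t := by
  have hc := ht.trans_le h
  have := wle (t := c⁻¹) (r := r⁻¹) le_rfl (inv_pos.2 hc) (by positivity) (by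
    rw [inv_pow, inv_pow, ← mul_inv]; exact one_le_inv_iff₀.2 ⟨by positivity, k⟩)
  rw [w, inv_rpow hc.le, inv_le_inv₀ (by positivity) hr] at this
  exact this.trans (rpow_le_rpow_of_nonpos ht h (by norm_num))

theorem ex {y : ℝ} (h1 : 1 / 9 ≤ |y|) (h2 : |y| ≤ 1 / 3) :
    g 0 (vv (3 * (3 * y))) + sd 0 (3 * y) + sd 0 y ≤ 0.479 := by
  have f : ∀ y, sd 0 y = w (7 - 12 * |y| + 9 * |y| ^ 2) + w (7 + 12 * |y| + 9 * |y| ^ 2) := fun y => by
    have e1 : N (b1 (vv y)) = 7 - 12 * y + 9 * y ^ 2 := by simp only [N, b1, vv]; ring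
    have e2 : N (b2 (vv y)) = 7 + 12 * y + 9 * y ^ 2 := by simp only [N, b2, vv]; ring
    simp only [sd, g, e1, e2]
    rcases abs_cases y with h | h <;> rw [h.1]
    rw [add_comm]; congr 2 <;> ring
  have e : N (vv (3 * (3 * y))) = 1 + 243 * |y| ^ 2 := by simp only [N, vv, sq_abs]; ring
  rw [f, f, g, e, abs_mul, abs_of_pos (three_pos (α := ℝ))]
  generalize |y| = t at *
  rcases le_total t (1 / 6) with h | h
  · have := wle (t := 1 + 243 * t ^ 2) (c := 4) (r := 0.134) (by nlinarith) (by norm_num)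
      (by norm_num) (by norm_num)
    have := wle (t := 7 - 12 * (3 * t) + 9 * (3 * t) ^ 2) (c := 3.25) (r := 0.1811) (by nlinarith)
      (by norm_num) (by norm_num) (by norm_num)
    have := wle (t := 7 + 12 * (3 * t) + 9 * (3 * t) ^ 2) (c := 12) (r := 0.0273) (by nlinarith)
      (by norm_num) (by norm_num) (by norm_num)
    have := wle (t := 7 - 12 * t + 9 * t ^ 2) (c := 5.25) (r := 0.0904) (by nlinarith)
      (by norm_num) (by norm_num) (by norm_num)
    have := wle (t := 7 + 12 * t + 9 * t ^ 2) (c := 8.44) (r := 0.0454) (by nlinarith)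
      (by norm_num) (by norm_num) (by norm_num)
    linarith
  · have := wle (t := 1 + 243 * t ^ 2) (c := 7.75) (r := 0.0514) (by nlinarith) (by norm_num)
      (by norm_num) (by norm_num)
    have := wle (t := 7 - 12 * (3 * t) + 9 * (3 * t) ^ 2) (c := 3) (r := 0.2034)
      (by nlinarith [sq_nonneg (9 * t - 2)]) (by norm_num) (by norm_num) (by norm_num)
    have := wle (t := 7 + 12 * (3 * t) + 9 * (3 * t) ^ 2) (c := 15.25) (r := 0.0193) (by nlinarith)
      (by norm_num) (by norm_num) (by norm_num)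
    have := wle (t := 7 - 12 * t + 9 * t ^ 2) (c := 4) (r := 0.134) (by nlinarith)
      (by norm_num) (by norm_num) (by norm_num)
    have := wle (t := 7 + 12 * t + 9 * t ^ 2) (c := 9.25) (r := 0.0398) (by nlinarith)
      (by norm_num) (by norm_num) (by norm_num)
    linarith

theorem unroll (a m : ℕ) (y : ℝ) : g (m + a) (vv y) =
    g m (vv (3 ^ a * y)) + ∑ j ∈ range a, sd (m + a - j - 1) (3 ^ j * y) := by
  induction a generalizing m with
  | zero => simp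
  | succ a ih =>
    rw [show m + (a + 1) = m + 1 + a by omega, ih, gv, sum_range_succ,
      show m + 1 + a - a - 1 = m by omega, pow_succ', mul_assoc]
    ring

theorem wlog (v : ℝ × ℝ) (hv : v ≠ 0) : ∃ c y : ℝ, |y| ≤ 1 / 3 ∧
    (v = c • vv y ∨ R v = c • vv y ∨ R (R v) = c • vv y) := by
  have k : ∀ v : ℝ × ℝ, v ≠ 0 → 3 * |v.2| ≤ |2 * v.1 + v.2| → ∃ c y : ℝ, |y| ≤ 1 / 3 ∧
      v = c • vv y := fun v hv h => by
    have c0 : 2 * v.1 + v.2 ≠ 0 := fun h0 => hv (by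
      rw [h0, abs_zero] at h
      have : v.2 = 0 := abs_nonpos_iff.1 (by linarith)
      ext
      · simp only [Prod.fst_zero]; linarith
      · exact this)
    refine ⟨(2 * v.1 + v.2) / 2, v.2 / (2 * v.1 + v.2), ?_, ?_⟩
    · rw [abs_div, div_le_iff₀ (abs_pos.2 c0)]; linarith
    · have := mul_div_cancel₀ v.2 c0
      ext <;> simp only [vv, Prod.smul_fst, Prod.smul_snd, smul_eq_mul] <;> linarith
  have r : ∀ v : ℝ × ℝ, v ≠ 0 → R v ≠ 0 := fun v hv h => hv (by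
    simp only [R, Prod.ext_iff, Prod.fst_zero, Prod.snd_zero] at h ⊢
    exact ⟨h.2, by linarith [h.1, h.2]⟩)
  by_cases h0 : 3 * |v.2| ≤ |2 * v.1 + v.2|
  · obtain ⟨c, y, a, b⟩ := k v hv h0
    exact ⟨c, y, a, .inl b⟩
  by_cases h1 : 3 * |(R v).2| ≤ |2 * (R v).1 + (R v).2|
  · obtain ⟨c, y, a, b⟩ := k _ (r v hv) h1
    exact ⟨c, y, a, .inr (.inl b)⟩
  obtain ⟨c, y, a, b⟩ := k _ (r _ (r v hv)) (by
    simp only [R] at h1 ⊢
    cases abs_cases v.1 <;> cases abs_cases v.2 <;> cases abs_cases (2 * v.1 + v.2) <;>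
      cases abs_cases (2 * (-v.1 - v.2) + v.1) <;> cases abs_cases (-v.1 - v.2) <;>
      cases abs_cases (2 * (-(-v.1 - v.2) - v.1) + (-v.1 - v.2)) <;> linarith)
  exact ⟨c, y, a, .inr (.inr b)⟩

theorem Nle (v : ℝ × ℝ) : N v ≤ N (a0 v) ∧ N v ≤ N (a1 v) ∧ N v ≤ N (a2 v) := by
  simp only [N, a0, a1, a2]
  exact ⟨by nlinarith [sq_nonneg v.2], by nlinarith [sq_nonneg (v.1 + v.2)],
    by nlinarith [sq_nonneg v.1]⟩

theorem Npos {v : ℝ × ℝ} (hv : v ≠ 0) : 0 < N v := by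
  refine (N0 v).lt_of_ne fun h => hv ?_
  unfold N at h
  ext <;> simp only [Prod.fst_zero, Prod.snd_zero] <;> nlinarith [sq_nonneg (v.1 + v.2)]

theorem g3 (n : ℕ) (v : ℝ × ℝ) {t : ℝ} (ht : 0 < t) (h : t ≤ N v) : g n v ≤ 3 ^ n * w t := by
  induction n generalizing v with
  | zero => rw [pow_zero, one_mul]; exact rpow_le_rpow_of_nonpos ht h (by norm_num)
  | succ n ih =>
    obtain ⟨n0, n1, n2⟩ := Nle v
    have := ih _ (h.trans n0)
    have := ih _ (h.trans n1)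
    have := ih _ (h.trans n2)
    rw [g, pow_succ]; linarith

theorem gz (n : ℕ) : g n 0 = 0 := by
  have := gs n 0 0
  rw [zero_smul, w, zero_pow two_ne_zero, zero_rpow (by norm_num), zero_mul] at this
  exact this

theorem grow {ρ : ℝ} (hρ : 1 < ρ) : ∃ C, 0 ≤ C ∧ ∀ n v, g n v ≤ C * ρ ^ n * g 0 v := by
  obtain ⟨K, hK⟩ := pow_unbounded_of_one_lt 3 hρ
  refine ⟨3 ^ (K + 2), by positivity, fun n => ?_⟩
  induction n using Nat.strong_induction_on with
  | _ n ih =>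
  set C : ℝ := 3 ^ (K + 2)
  have C0 : 0 < C := by positivity
  have p1 : ∀ n, 1 ≤ ρ ^ n := fun n => one_le_pow₀ hρ.le
  intro v
  rcases eq_or_ne v 0 with rfl | hv
  · simp [gz]
  rcases le_or_gt n (K + 2) with hn | hn
  · refine (g3 n v (Npos hv) le_rfl).trans (mul_le_mul_of_nonneg_right ?_ (g0 0 v))
    exact (pow_le_pow_right₀ (by norm_num) hn).trans (le_mul_of_one_le_right C0.le (p1 n))
  have sub : ∀ k < n, ∀ d v, g (k + d) v ≤ C * ρ ^ k * g d v := fun k hk d => by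
    induction d with
    | zero => exact ih k hk
    | succ d ihd =>
      intro v
      have := ihd (a0 v)
      have := ihd (a1 v)
      have := ihd (a2 v)
      rw [← add_assoc, g, g]; linarith
  have sub' : ∀ m < n, ∀ d ≤ m, ∀ v, g m v ≤ C * ρ ^ n * g d v := fun m hm d hd v => by
    have := sub (m - d) (by omega) d v
    rw [Nat.sub_add_cancel hd] at this
    refine this.trans ?_
    have := g0 d v
    gcongr
    · exact hρ.le
    · omega
  have ssd : ∀ m < n, ∀ d ≤ m, ∀ y, sd m y ≤ C * ρ ^ n * sd d y := fun m hm d hd y => by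
    have := sub' m hm d hd (b1 (vv y))
    have := sub' m hm d hd (b2 (vv y))
    unfold sd; linarith
  have Cp : 0 < C * ρ ^ n := by positivity
  have main : ∀ y, |y| ≤ 1 / 3 → g n (vv y) ≤ C * ρ ^ n * g 0 (vv y) := fun y hy => by
    have Nv : ∀ y, N (vv y) = 1 + 3 * |y| ^ 2 := fun y => by simp only [N, vv, sq_abs]; ring
    have un : ∀ a ≤ K, |3 ^ a * y| ≤ 1 / 3 → g n (vv y) ≤ g (n - a) (vv (3 ^ a * y)) +
        C * ρ ^ n * (if a = 0 then 0 else 0.457) := fun a ha h => by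
      have := unroll a (n - a) y
      rw [Nat.sub_add_cancel (by omega)] at this
      rw [this]
      refine add_le_add_right ((sum_le_sum fun j hj => ssd _ (by omega) (a - j)
        (by have := mem_range.1 hj; omega) _).trans ?_) _
      rw [← mul_sum]
      refine mul_le_mul_of_nonneg_left ?_ Cp.le
      split_ifs with h0
      · simp [h0]
      · exact side a h
    have low : ∀ a, |3 ^ a * y| ≤ 1 / 3 → 0.479 + (if a = 0 then 0 else 0.457) ≤ g 0 (vv y) := by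
      intro a h
      have y0 := abs_nonneg y
      split_ifs with h0
      · exact wge (c := 4 / 3) (by rw [Nv]; nlinarith) (by rw [Nv]; positivity) (by norm_num)
          (by norm_num)
      · have : (3 : ℝ) ≤ 3 ^ a := le_self_pow₀ (by norm_num) h0
        rw [abs_mul, abs_of_pos (by positivity)] at h
        have : |y| ≤ 1 / 9 := by nlinarith
        exact wge (c := 28 / 27) (by rw [Nv]; nlinarith) (by rw [Nv]; positivity) (by norm_num)
          (by norm_num)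
    suffices ∃ a ≤ K, |3 ^ a * y| ≤ 1 / 3 ∧ g (n - a) (vv (3 ^ a * y)) ≤ C * ρ ^ n * 0.479 by
      obtain ⟨a, h1, h2, h3⟩ := this
      have := un a h1 h2
      have := mul_le_mul_of_nonneg_left (low a h2) Cp.le
      linarith
    by_cases hy' : |3 ^ K * y| ≤ 1 / 3
    · refine ⟨K, le_rfl, hy', (ih (n - K) ?_ _).trans ?_⟩
      · rcases K with _ | K
        · norm_num at hK
        · omega
      · have a : g 0 (vv (3 ^ K * y)) ≤ 1 :=
          wle (c := 1) (by rw [Nv]; nlinarith [sq_nonneg |3 ^ K * y|]) one_pos zero_le_one (by simp)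
        have e : ρ ^ n = ρ ^ (n - K) * ρ ^ K := by rw [← pow_add, Nat.sub_add_cancel (by omega)]
        have : 0 < C * ρ ^ (n - K) := by positivity
        rw [e, ← mul_assoc]
        nlinarith
    · obtain ⟨a, h1, h2, h3⟩ : ∃ a < K, |3 ^ a * y| ≤ 1 / 3 ∧ ¬|3 ^ (a + 1) * y| ≤ 1 / 3 := by
        by_contra! h
        refine hy' (Nat.rec (motive := fun a => a ≤ K → |3 ^ a * y| ≤ 1 / 3)
          (fun _ => by simpa using hy) (fun a i ha => h a ha (i (by omega))) K le_rfl)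
      refine ⟨a, h1.le, h2, ?_⟩
      obtain ⟨m, hm⟩ : ∃ m, n - a = m + 1 + 1 := ⟨n - a - 2, by omega⟩
      rw [pow_succ', mul_assoc, abs_mul, abs_of_pos (three_pos (α := ℝ))] at h3
      have := mul_le_mul_of_nonneg_left (ex (y := 3 ^ a * y) (by linarith) h2) Cp.le
      have := sub' m (by omega) 0 (by omega) (vv (3 * (3 * (3 ^ a * y))))
      have := ssd m (by omega) 0 (by omega) (3 * (3 ^ a * y))
      have := ssd (m + 1) (by omega) 0 (by omega) (3 ^ a * y)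
      rw [hm, gv, gv]
      linarith
  obtain ⟨c, y, hy, h⟩ := wlog v hv
  have : g n (c • vv y) ≤ C * ρ ^ n * g 0 (c • vv y) := by
    rw [gs, gs, mul_left_comm]
    exact mul_le_mul_of_nonneg_left (main y hy) (rpow_nonneg (sq_nonneg c) _)
  rcases h with h | h | h <;> rw [← h] at this <;> simpa only [gR] using this

end Pool.Agent.H.MP_ed8a78_an
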