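import Pool.Agent.H.MP_ed8a78_an.B

set_option autoImplicit false

namespace Pool.Agent.H.MP_ed8a78_an
open Finset Real Filter Topology

def aa : Fin 3 → ℝ × ℝ → ℝ × ℝ := ![a0, a1, a2]

def fo (l : List (Fin 3)) (v : ℝ × ℝ) : ℝ × ℝ := l.foldl (fun v i => aa i v) v

def S (n : ℕ) (F : ℝ × ℝ → ℝ × ℝ → ℝ) (a b : ℝ × ℝ) : ℝ :=
  ∑ w : Fin n → Fin 3, F (fo (List.ofFn w) a) (fo (List.ofFn w) b)

theorem S0 (F : ℝ × ℝ → ℝ × ℝ → ℝ) (a b : ℝ × ℝ) : S 0 F a b = F a b := by simp [S, fo]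

theorem S1 (n : ℕ) (F : ℝ × ℝ → ℝ × ℝ → ℝ) (a b : ℝ × ℝ) :
    S (n + 1) F a b = ∑ i, S n F (aa i a) (aa i b) := by
  rw [S, ← (Fin.consEquiv fun _ => Fin 3).sum_comp, Fintype.sum_prod_type]
  simp [S, fo, Fin.consEquiv]

theorem S2 (n : ℕ) (F : ℝ × ℝ → ℝ × ℝ → ℝ) (a b : ℝ × ℝ) :
    S (n + 1) F a b = S n (fun a b => ∑ i, F (aa i a) (aa i b)) a b := by
  induction n generalizing a b with
  | zero => simp only [S1, S0]
  | succ n ih => rw [S1, S1]; simp only [ih]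

theorem Sg (n : ℕ) (a b : ℝ × ℝ) : S n (fun _ b => w (N b)) a b = g n b := by
  induction n generalizing a b with
  | zero => rw [S0, g]
  | succ n ih => simp [S1, ih, g, Fin.sum_univ_three, aa]

theorem sN (b : ℝ × ℝ) : ∑ i, N (aa i b) = 15 * N b := by
  simp [Fin.sum_univ_three, aa, N, a0, a1, a2]; ring

theorem SN (n : ℕ) (a b : ℝ × ℝ) : S n (fun _ b => N b) a b = 15 ^ n * N b := by
  induction n generalizing a b with
  | zero => simp [S0]
  | succ n ih => simp only [S1, ih, ← mul_sum, sN]; ring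

def D (a b : ℝ × ℝ) : ℝ := a.1 * b.2 - a.2 * b.1

theorem aN (i : Fin 3) (v : ℝ × ℝ) : N v ≤ N (aa i v) ∧ N (aa i v) ≤ 9 * N v := by
  obtain ⟨n0, n1, n2⟩ := Nle v
  fin_cases i
  · exact ⟨n0, by simp [aa, N, a0]; nlinarith [sq_nonneg (2 * v.1 + v.2)]⟩
  · exact ⟨n1, by simp [aa, N, a1]; nlinarith [sq_nonneg (v.1 - v.2)]⟩
  · exact ⟨n2, by simp [aa, N, a2]; nlinarith [sq_nonneg (v.1 + 2 * v.2)]⟩

theorem foN (l : List (Fin 3)) (v : ℝ × ℝ) : N v ≤ N (fo l v) := by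
  induction l generalizing v with
  | nil => rfl
  | cons i l ih => exact (aN i v).1.trans (ih _)

theorem foD (l : List (Fin 3)) (a b : ℝ × ℝ) : D (fo l a) (fo l b) = 3 ^ l.length * D a b := by
  induction l generalizing a b with
  | nil => simp [fo]
  | cons i l ih =>
    have : D (aa i a) (aa i b) = 3 * D a b := by fin_cases i <;> simp [aa, D, a0, a1, a2] <;> ring
    exact (ih _ _).trans (by rw [this, List.length_cons]; ring)

theorem rat (i : Fin 3) (a : ℝ × ℝ) {b : ℝ × ℝ} (hb : 0 < N b) {η : ℝ} (hη : 0 < η) :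
    N (aa i a) / N (aa i b) ≤ (1 + η) * (N a / N b) + (1 + η⁻¹) * (7 * (D a b / N b) ^ 2) := by
  set α := (2 * a.1 * b.1 + a.1 * b.2 + a.2 * b.1 + 2 * a.2 * b.2) / 2 / N b
  have hα : α * N b = (2 * a.1 * b.1 + a.1 * b.2 + a.2 * b.1 + 2 * a.2 * b.2) / 2 :=
    div_mul_cancel₀ _ hb.ne'
  set u := a - α • b
  have e1 : N u = N a - α ^ 2 * N b := by
    have : N u = N a - α * (2 * a.1 * b.1 + a.1 * b.2 + a.2 * b.1 + 2 * a.2 * b.2) + α ^ 2 * N b := by
      simp [u, N]; ring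
    rw [this]; linear_combination 2 * α * hα
  have e2 : N u = 3 / 4 * (D a b / N b) ^ 2 * N b := by
    have : N a * N b - (α * N b) ^ 2 = 3 / 4 * D a b ^ 2 := by rw [hα]; simp only [N, D]; ring
    rw [e1]; field_simp; linarith
  have e3 : aa i a = α • aa i b + aa i u := by
    fin_cases i <;> ext <;> simp [aa, a0, a1, a2, u] <;> ring
  have e4 : ∀ x y : ℝ × ℝ, N (x + y) ≤ (1 + η) * N x + (1 + η⁻¹) * N y := fun x y => by
    have := mul_nonneg hη.le (N0 (x - η⁻¹ • y))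
    have e : η * N (x - η⁻¹ • y) = (1 + η) * N x + (1 + η⁻¹) * N y - N (x + y) := by
      simp [N]; field_simp; ring
    linarith
  obtain ⟨n1, -⟩ := aN i b
  obtain ⟨-, n2⟩ := aN i u
  have n3 := hb.trans_le n1
  have n4 : α ^ 2 ≤ N a / N b := by rw [le_div_iff₀ hb]; linarith [N0 u]
  rw [div_le_iff₀ n3, e3]
  refine (e4 _ _).trans ?_
  rw [Ns, add_mul ((1 + η) * _), mul_assoc, mul_assoc]
  gcongr
  nlinarith [mul_le_mul_of_nonneg_left n1 (sq_nonneg (D a b / N b)), sq_nonneg (D a b / N b)]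

theorem pa {s t η p : ℝ} (hs : 0 ≤ s) (ht : 0 ≤ t) (hη : 0 < η) (hp : 0 ≤ p) :
    (s + t) ^ p ≤ ((1 + η) * s) ^ p + ((1 + η⁻¹) * t) ^ p := by
  rcases le_total t (η * s) with h | h
  · exact le_add_of_le_of_nonneg (rpow_le_rpow (by positivity) (by linarith) hp) (by positivity)
  · refine le_add_of_nonneg_of_le (by positivity) (rpow_le_rpow (by positivity) ?_ hp)
    have := (le_inv_mul_iff₀ hη).2 h
    linarith

theorem step (a : ℝ × ℝ) {b : ℝ × ℝ} (hb : 0 < N b) {η p : ℝ} (hη : 0 < η) (hp : 0 ≤ p) :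
    ∑ i, (N (aa i a) / N (aa i b)) ^ p * N (aa i b) ≤ 15 * (exp (2 * p * η) * ((N a / N b) ^ p * N b)
      + (7 * (1 + η⁻¹) ^ 2 * D a b ^ 2) ^ p * N b ^ (1 - 2 * p)) := by
  have r0 := div_nonneg (N0 a) hb.le
  have k : ∀ i, (N (aa i a) / N (aa i b)) ^ p ≤ exp (2 * p * η) * (N a / N b) ^ p +
      (7 * (1 + η⁻¹) ^ 2 * D a b ^ 2) ^ p * N b ^ (-(2 * p)) := fun i => by
    refine (rpow_le_rpow (div_nonneg (N0 _) (N0 _)) (rat i a hb hη) hp).trans
      ((pa (by positivity) (by positivity) hη hp).trans (add_le_add ?_ (le_of_eq ?_)))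
    · rw [← mul_assoc, mul_rpow (by positivity) r0, mul_comm 2, mul_assoc, mul_comm p, exp_mul]
      gcongr
      rw [two_mul, exp_add]
      have := add_one_le_exp η
      gcongr <;> linarith
    · rw [rpow_neg hb.le, rpow_mul hb.le, rpow_two, ← inv_rpow (by positivity),
        ← mul_rpow (by positivity) (by positivity)]
      congr 1
      field_simp
  refine (sum_le_sum fun i _ => mul_le_mul_of_nonneg_right (k i) (N0 _)).trans_eq ?_
  rw [← mul_sum, sN, sub_eq_add_neg, rpow_add hb, rpow_one]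
  ring

theorem recur {s : ℕ → ℝ} {c K l m : ℝ} (hc : 0 ≤ c) (hK : 0 ≤ K) (l0 : 0 ≤ l) (l1 : l < 1)
    (m0 : 0 ≤ m) (m1 : m < 1) (s0 : 0 ≤ s 0) (h : ∀ n, s (n + 1) ≤ exp (c * l ^ n) * s n + K * m ^ n) :
    ∃ C, ∀ n, s n ≤ C := by
  have a : ∀ n, s n ≤ exp (c * ∑ k ∈ range n, l ^ k) * (s 0 + K * ∑ k ∈ range n, m ^ k) := fun n => by
    induction n with
    | zero => simp
    | succ n ih =>
      refine (h n).trans ?_
      rw [sum_range_succ, sum_range_succ, mul_add c, add_comm (c * _), exp_add, mul_add K,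
        ← add_assoc, mul_add, mul_assoc]
      refine add_le_add (by gcongr) (le_mul_of_one_le_left (by positivity) ?_)
      exact one_le_mul_of_one_le_of_one_le (one_le_exp (by positivity)) (one_le_exp (by positivity))
  refine ⟨exp (c * ∑' k, l ^ k) * (s 0 + K * ∑' k, m ^ k), fun n => (a n).trans ?_⟩
  have := (summable_geometric_of_lt_one l0 l1).sum_le_tsum (range n) fun k _ => by positivity
  have := (summable_geometric_of_lt_one m0 m1).sum_le_tsum (range n) fun k _ => by positivity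
  gcongr

theorem bd (a : ℝ × ℝ) {b : ℝ × ℝ} (hb : 0 < N b) {p : ℝ} (p1 : 49 / 40 ≤ p) (p2 : 9 ^ p < (15 : ℝ)) :
    ∃ C, ∀ n, S n (fun a b => (N a / N b) ^ p * N b) a b / 15 ^ n ≤ C := by
  have p0 : 0 ≤ p := by linarith
  obtain ⟨ρ, r1, r2⟩ : ∃ ρ : ℝ, (9 * ρ ^ 2) ^ p * ρ / 15 < 1 ∧ 1 < ρ := by
    have : ContinuousAt (fun ρ : ℝ => (9 * ρ ^ 2) ^ p * ρ / 15) 1 :=
      (((by fun_prop : ContinuousAt (fun ρ : ℝ => 9 * ρ ^ 2) 1).rpow_const (.inr p0)).mul
        continuousAt_id).div_const _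
    exact (((this.eventually (gt_mem_nhds (by simpa [div_lt_one] using p2))).filter_mono
      (nhdsWithin_le_nhds (s := Set.Ioi 1))).and self_mem_nhdsWithin).exists
  obtain ⟨C, C0, hC⟩ := grow r2
  have g1 := g0 0 b
  refine recur (c := 2 * p) (K := (28 * D a b ^ 2) ^ p * N b ^ (49 / 20 - 2 * p) * C * g 0 b)
    (l := ρ⁻¹) (by positivity) (by positivity) (by positivity) (inv_lt_one_of_one_lt₀ r2)
    (by positivity) r1 (by rw [S0]; have := N0 a; positivity) fun n => ?_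
  have k : ∀ v : Fin n → Fin 3, (7 * (1 + (ρ⁻¹ ^ n)⁻¹) ^ 2 *
      D (fo (List.ofFn v) a) (fo (List.ofFn v) b) ^ 2) ^ p * N (fo (List.ofFn v) b) ^ (1 - 2 * p) ≤
      (28 * D a b ^ 2) ^ p * ((9 * ρ ^ 2) ^ p) ^ n * N b ^ (49 / 20 - 2 * p) *
        w (N (fo (List.ofFn v) b)) := fun v => by
    have n1 := foN (List.ofFn v) b
    rw [show 1 - 2 * p = (49 / 20 - 2 * p) + -(29 / 20) by ring, rpow_add (hb.trans_le n1),
      ← mul_assoc, w, foD, List.length_ofFn, rpow_pow_comm (by positivity),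
      ← mul_rpow (by positivity) (by positivity)]
    refine mul_le_mul_of_nonneg_right (mul_le_mul (rpow_le_rpow (by positivity) ?_ p0)
      (rpow_le_rpow_of_nonpos hb n1 (by linarith)) (rpow_nonneg (N0 _) _) (by positivity))
      (rpow_nonneg (N0 _) _)
    have e : (9 * ρ ^ 2) ^ n = (3 ^ n * ρ ^ n) ^ 2 := by
      rw [← mul_pow, ← pow_mul, mul_comm n, pow_mul]; congr 1; ring
    have := one_le_pow₀ (n := n) r2.le
    have : (1 + ρ ^ n) ^ 2 ≤ 4 * (ρ ^ n) ^ 2 := by nlinarith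
    rw [inv_pow, inv_inv, e]
    nlinarith [mul_le_mul_of_nonneg_left this (sq_nonneg (3 ^ n * D a b))]
  have := sum_le_sum fun (v : Fin n → Fin 3) (_ : v ∈ univ) =>
    (step (fo (List.ofFn v) a) (hb.trans_le (foN (List.ofFn v) b))
      (show 0 < ρ⁻¹ ^ n by positivity) p0).trans (mul_le_mul_of_nonneg_left
        (add_le_add_right (k v) _) (by norm_num))
  rw [← mul_sum, sum_add_distrib, ← mul_sum, ← mul_sum] at this
  have e := Sg n a b
  rw [S] at e
  rw [e] at this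
  rw [S2, div_le_iff₀ (by positivity)]
  refine le_trans this ((mul_le_mul_of_nonneg_left (add_le_add_right
    (mul_le_mul_of_nonneg_left (hC n b) (by positivity)) _) (by norm_num)).trans_eq ?_)
  rw [S, div_pow, mul_pow, pow_succ]
  generalize ∑ w : Fin n → Fin 3, (_ : ℝ) = T
  generalize exp _ = T'
  generalize ((9 * ρ ^ 2) ^ p) ^ n = T1
  generalize N b ^ (49 / 20 - 2 * p) = T2
  field_simp
  ring

theorem bd2 (a : ℝ × ℝ) {b : ℝ × ℝ} (hb : 0 < N b) {p : ℝ} (p1 : 0 ≤ p)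
    (p2 : p < log 15 / log 9) :
    ∃ C, ∀ n, S n (fun a b => (N a / N b) ^ p * N b) a b / 15 ^ n ≤ C := by
  have h : max p (49 / 40) < log 15 / log 9 := by
    refine max_lt p2 ?_
    rw [lt_div_iff₀ (log_pos (by norm_num))]
    have := log_lt_log (by positivity) (show (9 : ℝ) ^ 49 < 15 ^ 40 by norm_num)
    rw [log_pow, log_pow] at this
    push_cast at this
    linarith
  rw [lt_div_iff₀ (log_pos (by norm_num)), ← rpow_lt_iff_lt_log (by norm_num) (by norm_num)] at h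
  obtain ⟨C, hC⟩ := bd a hb (le_max_right p _) h
  refine ⟨N b + C, fun n => le_trans ?_ (add_le_add_right (hC n) _)⟩
  rw [← mul_div_cancel_left₀ (N b) (show (15 : ℝ) ^ n ≠ 0 by positivity), ← SN n a b, ← add_div]
  gcongr
  rw [S, S, S, ← sum_add_distrib]
  refine sum_le_sum fun v _ => ?_
  rw [← one_add_mul]
  refine mul_le_mul_of_nonneg_right ?_ (N0 _)
  have r := div_nonneg (N0 (fo (List.ofFn v) a)) (N0 (fo (List.ofFn v) b))
  rcases le_total (N (fo (List.ofFn v) a) / N (fo (List.ofFn v) b)) 1 with h | h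
  · exact le_add_of_le_of_nonneg (rpow_le_one r h p1) (rpow_nonneg r _)
  · exact le_add_of_nonneg_of_le zero_le_one (rpow_le_rpow_of_exponent_le h (le_max_left _ _))

def cc (h : Fin 3 → ℝ) : ℝ × ℝ := (2 * h 2 - h 0 - h 1, 2 * h 0 - h 1 - h 2)

theorem final (A : Fin 3 → Matrix (Fin 3) (Fin 3) ℝ)
    (hA : A = ![!![1, 0, 0; 2/5, 2/5, 1/5; 2/5, 1/5, 2/5],
      !![2/5, 2/5, 1/5; 0, 1, 0; 1/5, 2/5, 2/5], !![2/5, 1/5, 2/5; 1/5, 2/5, 2/5; 0, 0, 1]])
    (E : (Fin 3 → ℝ) → ℝ)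
    (hE : ∀ v : Fin 3 → ℝ, E v = (v 0 - v 1) ^ 2 + (v 1 - v 2) ^ 2 + (v 0 - v 2) ^ 2)
    (ν : (Fin 3 → ℝ) → (n : ℕ) → (Fin n → Fin 3) → ℝ)
    (hν : ∀ (x : Fin 3 → ℝ) (n : ℕ) (w : Fin n → Fin 3),
      ν x n w = (5/3 : ℝ) ^ n * E ((List.ofFn w).foldl (fun v i => (A i).mulVec v) x) / E x)
    (x y : Fin 3 → ℝ) (hx : E x ≠ 0) (hy : E y ≠ 0) (p : ℝ) (p1 : 1 < p)
    (p2 : p < log 15 / log 9) :
    ∃ C : ℝ, ∀ n : ℕ, ∑ w : Fin n → Fin 3, (ν x n w) ^ p * (ν y n w) ^ (1 - p) ≤ C := by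
  have e1 : ∀ v, E v = 2 / 3 * N (cc v) := fun v => by simp only [hE, N, cc]; ring
  have e2 : ∀ (l : List (Fin 3)) (c : ℝ) v u, cc v = c • u →
      cc (l.foldl (fun v i => (A i).mulVec v) v) = (c * (1 / 5) ^ l.length) • fo l u := by
    intro l
    induction l with
    | nil => intro c v u h; simpa [fo] using h
    | cons i l ih =>
      intro c v u h
      refine (ih (c * (1 / 5)) _ (aa i u) ?_).trans (by rw [List.length_cons, pow_succ', mul_assoc]; rfl)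
      have h1 := congrArg Prod.fst h
      have h2 := congrArg Prod.snd h
      simp only [cc, Prod.smul_fst, Prod.smul_snd, smul_eq_mul] at h1 h2
      subst hA
      fin_cases i <;> ext <;> simp [cc, aa, a0, a1, a2, Matrix.mulVec, dotProduct, Fin.sum_univ_three] <;>
        linarith
  have e3 : ∀ x n w, ν x n w = N (fo (List.ofFn w) (cc x)) / N (cc x) / 15 ^ n := fun x n w => by
    rw [hν, e1, e1, e2 _ 1 _ _ (one_smul _ _).symm, Ns, List.length_ofFn, one_mul, ← pow_mul,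
      mul_comm n, pow_mul, show (15 : ℝ) ^ n = ((5 / 3) ^ n * ((1 / 5) ^ 2) ^ n)⁻¹ by
        rw [← mul_pow, ← inv_pow]; norm_num, div_inv_eq_mul]
    ring
  have pos : ∀ x, E x ≠ 0 → 0 < N (cc x) := fun x h =>
    (N0 _).lt_of_ne fun h0 => h (by rw [e1, ← h0, mul_zero])
  have a0 := pos x hx
  have b0 := pos y hy
  obtain ⟨C, hC⟩ := bd2 (cc x) b0 (by linarith) p2
  refine ⟨(N (cc y) / N (cc x)) ^ p / N (cc y) * C, fun n => le_trans (le_of_eq ?_)
    (mul_le_mul_of_nonneg_left (hC n) (by positivity))⟩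
  rw [S, sum_div, mul_sum]
  refine sum_congr rfl fun v _ => ?_
  have a1 := a0.trans_le (foN (List.ofFn v) _)
  have b1 := b0.trans_le (foN (List.ofFn v) _)
  rw [e3, e3, rpow_sub (by positivity), rpow_one]
  simp (disch := positivity) only [div_rpow]
  field_simp

end Pool.Agent.H.MP_ed8a78_an
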